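import Pool.Agent.H830.GT.Stm

/-!
# GT project, task R3: the fundamental class relation (helper726, for helper830)
-/

set_option autoImplicit false

namespace Pool.Agent.H830.GT

namespace R3

/-- a permutation of `Fin 5` restricted to the complement of `i` -/
theorem restr {n : ℕ} (σ : Equiv.Perm (Fin (n + 1))) (i : Fin (n + 1)) :
    ∃ π : Equiv.Perm (Fin n), (∀ t, σ (i.succAbove t) = (σ i).succAbove (π t)) ∧
      ((Equiv.Perm.sign π : ℤˣ) : ℤ) =
        ((Equiv.Perm.sign σ : ℤˣ) : ℤ) * ((-1) ^ (i : ℕ) * (-1) ^ ((σ i : Fin (n + 1)) : ℕ)) := by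
  set τ : Equiv.Perm (Fin (n + 1)) := (σ i).cycleRange * σ * (i.cycleRange)⁻¹ with hτ
  have hsymm : ∀ (k : Fin (n + 1)) (x : Fin (n + 1)), (k.cycleRange)⁻¹ x = k.cycleRange.symm x :=
    fun _ _ => rfl
  have h0 : τ 0 = 0 := by
    rw [hτ, Equiv.Perm.mul_apply, Equiv.Perm.mul_apply, hsymm, Fin.cycleRange_symm_zero]
    simp
  obtain ⟨⟨q, π⟩, hπ⟩ : ∃ z, τ = Equiv.Perm.decomposeFin.symm z :=
    ⟨Equiv.Perm.decomposeFin τ, by simp⟩
  have hq : q = 0 := by
    have h1 := congrArg (fun e : Equiv.Perm (Fin (n + 1)) => e 0) hπ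
    simp only [h0, Equiv.Perm.decomposeFin_symm_apply_zero] at h1
    exact h1.symm
  subst hq
  have hs : ∀ t : Fin n, τ t.succ = (π t).succ := by
    intro t
    rw [hπ, Equiv.Perm.decomposeFin_symm_apply_succ]
    simp
  refine ⟨π, fun t => ?_, ?_⟩
  · have h2 := hs t
    rw [hτ, Equiv.Perm.mul_apply, Equiv.Perm.mul_apply, hsymm, Fin.cycleRange_symm_succ] at h2
    rw [← Fin.cycleRange_symm_succ (σ i) (π t), ← h2, Equiv.symm_apply_apply]
  · have h3 : Equiv.Perm.sign τ = Equiv.Perm.sign π := by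
      rw [hπ, Equiv.Perm.decomposeFin.symm_sign]
      simp
    have h4 : Equiv.Perm.sign τ = (-1) ^ ((σ i : Fin (n + 1)) : ℕ) * Equiv.Perm.sign σ *
        (-1) ^ (i : ℕ) := by
      rw [hτ, Equiv.Perm.sign_mul, Equiv.Perm.sign_mul, Equiv.Perm.sign_inv, Fin.sign_cycleRange,
        Fin.sign_cycleRange]
    rw [← h3, h4]
    push_cast
    ring

variable {P : Type}

/-- `d` of an alternating function is alternating -/
theorem d_alt {k : ℕ} (f : P → (Fin (k + 1) → Fin 5) → ℚ)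
    (hf : ∀ p x (π : Equiv.Perm (Fin (k + 1))),
      f p (x ∘ π) = ((Equiv.Perm.sign π : ℤˣ) : ℤ) * f p x)
    (p : P) (x : Fin (k + 2) → Fin 5) (π : Equiv.Perm (Fin (k + 2))) :
    GenTriangulation.d f p (x ∘ π) =
      ((Equiv.Perm.sign π : ℤˣ) : ℤ) * GenTriangulation.d f p x := by
  show (∑ t : Fin (k + 2), (-1 : ℚ) ^ (t : ℕ) * f p (fun s => x (π (t.succAbove s)))) =
    ((Equiv.Perm.sign π : ℤˣ) : ℤ) *
      (∑ t : Fin (k + 2), (-1 : ℚ) ^ (t : ℕ) * f p (fun s => x (t.succAbove s)))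
  rw [← Equiv.sum_comp π (fun t : Fin (k + 2) =>
    (-1 : ℚ) ^ (t : ℕ) * f p (fun s => x (t.succAbove s))), Finset.mul_sum]
  refine Finset.sum_congr rfl fun t _ => ?_
  obtain ⟨ρ, hρ1, hρ2⟩ := restr π t
  have h1 : (fun s => x (π (t.succAbove s))) = (fun s => x ((π t).succAbove s)) ∘ ρ := by
    funext s
    simp only [Function.comp_apply]
    rw [hρ1]
  rw [h1, hf p _ ρ, hρ2]
  push_cast
  have h2 : ((-1 : ℚ) ^ (t : ℕ)) * (-1) ^ (t : ℕ) = 1 := by
    rw [← mul_pow]; norm_num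
  linear_combination ((Equiv.Perm.sign π : ℤˣ) : ℚ) * (-1) ^ ((π t : Fin (k + 2)) : ℕ) *
    f p (fun s => x ((π t).succAbove s)) * h2

theorem alt_zero {m : ℕ} (g : (Fin m → Fin 5) → ℚ)
    (hg : ∀ x (π : Equiv.Perm (Fin m)), g (x ∘ π) = ((Equiv.Perm.sign π : ℤˣ) : ℤ) * g x)
    (x : Fin m → Fin 5) (hx : ¬ Function.Injective x) : g x = 0 := by
  unfold Function.Injective at hx
  push Not at hx
  obtain ⟨a, b, hab, hne⟩ := hx
  have h1 : x ∘ Equiv.swap a b = x := by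
    funext t
    simp only [Function.comp_apply]
    by_cases h : t = a
    · subst h; rw [Equiv.swap_apply_left]; exact hab.symm
    · by_cases h' : t = b
      · subst h'; rw [Equiv.swap_apply_right]; exact hab
      · rw [Equiv.swap_apply_of_ne_of_ne h h']
  have h2 := hg x (Equiv.swap a b)
  rw [h1, Equiv.Perm.sign_swap hne] at h2
  push_cast at h2
  linarith

variable (X : GenTriangulation P)

/-- the involution on the facets -/
def sg (x : P × Fin 5) : P × Fin 5 := (X.nb x.1 x.2, X.gl x.1 x.2 x.2)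

theorem sg_sg (x : P × Fin 5) : sg X (sg X x) = x := by
  obtain ⟨p, i⟩ := x
  show (X.nb (X.nb p i) (X.gl p i i), X.gl (X.nb p i) (X.gl p i i) (X.gl p i i)) = (p, i)
  rw [X.nb_nb, X.gl_gl]
  simp

theorem d_id (f : P → (Fin 4 → Fin 5) → ℚ) (p : P) :
    GenTriangulation.d (k := 3) f p id = ∑ i : Fin 5, (-1) ^ (i : ℕ) * f p i.succAbove := rfl

theorem cross (f : P → (Fin 4 → Fin 5) → ℚ) (hf : f ∈ X.cochains 3) (p : P) (i : Fin 5) :
    f p i.succAbove = ((Equiv.Perm.sign (X.gl p i) : ℤˣ) : ℤ) *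
      ((-1) ^ (i : ℕ) * (-1) ^ ((X.gl p i i : Fin 5) : ℕ)) *
        f (X.nb p i) (X.gl p i i).succAbove := by
  have h1 := hf.2 p i.succAbove i (fun t => Fin.succAbove_ne i t)
  obtain ⟨π, hπ1, hπ2⟩ := restr (X.gl p i) i
  have h2 : (fun t => X.gl p i (i.succAbove t)) = (X.gl p i i).succAbove ∘ π := by
    funext t
    simp only [Function.comp_apply]
    rw [hπ1]
  have h3 := hf.1 (X.nb p i) (X.gl p i i).succAbove π
  rw [← h1, h2]
  refine h3.trans ?_
  rw [hπ2]
  push_cast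
  rfl

theorem fund (f : P → (Fin 4 → Fin 5) → ℚ) (hf : f ∈ X.cochains 3) (ε : P → ℤˣ)
    (hε : ∀ p i, ε (X.nb p i) * Equiv.Perm.sign (X.gl p i) = - ε p) [Fintype P] :
    ∑ p : P, ((ε p : ℤ) : ℚ) * GenTriangulation.d (k := 3) f p id = 0 := by
  have h1 : ∑ p : P, ((ε p : ℤ) : ℚ) * GenTriangulation.d (k := 3) f p id =
      ∑ x : P × Fin 5, ((ε x.1 : ℤ) : ℚ) * (-1) ^ (x.2 : ℕ) * f x.1 x.2.succAbove := by
    rw [Fintype.sum_prod_type]
    refine Finset.sum_congr rfl fun p _ => ?_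
    rw [d_id, Finset.mul_sum]
    refine Finset.sum_congr rfl fun v _ => ?_
    ring
  have hinv : Function.Involutive (sg X) := sg_sg X
  have h2 : ∑ x : P × Fin 5, ((ε x.1 : ℤ) : ℚ) * (-1) ^ (x.2 : ℕ) * f x.1 x.2.succAbove =
      ∑ x : P × Fin 5, -(((ε x.1 : ℤ) : ℚ) * (-1) ^ (x.2 : ℕ) * f x.1 x.2.succAbove) := by
    rw [← Equiv.sum_comp hinv.toPerm]
    refine Finset.sum_congr rfl fun x _ => ?_
    obtain ⟨p, i⟩ := x
    have e1 : (hinv.toPerm) (p, i) = (X.nb p i, X.gl p i i) := rfl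
    rw [e1]
    simp only
    rw [cross X f hf p i]
    have e3 : ((ε (X.nb p i) : ℤ) : ℚ) * ((Equiv.Perm.sign (X.gl p i) : ℤˣ) : ℤ) =
        - ((ε p : ℤ) : ℚ) := by
      have := congrArg (fun u : ℤˣ => ((u : ℤ) : ℚ)) (hε p i)
      simpa using this
    have e4 : (((Equiv.Perm.sign (X.gl p i) : ℤˣ) : ℤ) : ℚ) *
        ((Equiv.Perm.sign (X.gl p i) : ℤˣ) : ℤ) = 1 := by
      rcases Int.units_eq_one_or (Equiv.Perm.sign (X.gl p i)) with h | h <;> rw [h] <;> norm_num
    have e5 : ((-1 : ℚ) ^ (i : ℕ)) * (-1) ^ (i : ℕ) = 1 := by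
      rw [← mul_pow]; norm_num
    generalize (((Equiv.Perm.sign (X.gl p i) : ℤˣ) : ℤ) : ℚ) = s at e3 e4 ⊢
    generalize ((-1 : ℚ) ^ (i : ℕ)) = u at e5 ⊢
    generalize ((-1 : ℚ) ^ ((X.gl p i i : Fin 5) : ℕ)) = v
    generalize f (X.nb p i) (X.gl p i i).succAbove = F
    generalize ((ε (X.nb p i) : ℤ) : ℚ) = a at e3 ⊢
    generalize ((ε p : ℤ) : ℚ) = b at e3 ⊢
    have hb : b = -(a * s) := by rw [e3]; ring
    rw [hb]
    linear_combination (-(a * v * F)) * e4 - (a * s * s * v * F) * e5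
  rw [h1]
  rw [Finset.sum_neg_distrib] at h2
  linarith

end R3

open GenTriangulation R3 in
/-- **T_r3** -/
theorem T_r3 : S_r3 := by
  classical
  intro P _ _ X hO
  have : Fintype P := Fintype.ofFinite P
  obtain ⟨ε, hε⟩ := hO
  let L : (P → ℚ) →ₗ[ℚ] ℚ := ∑ p : P, ((ε p : ℤ) : ℚ) • LinearMap.proj p
  have hL : ∀ h : P → ℚ, L h = ∑ p : P, ((ε p : ℤ) : ℚ) * h p := by
    intro h
    simp [L]
  have hεs : ∀ p, ((ε p : ℤ) : ℚ) * ((ε p : ℤ) : ℚ) = 1 := by
    intro p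
    rcases Int.units_eq_one_or (ε p) with h | h <;> rw [h] <;> norm_num
  have hker : Module.finrank ℚ (LinearMap.ker L) + 1 = Nat.card P := by
    have h1 := LinearMap.finrank_range_add_finrank_ker L
    have h2 : LinearMap.range L = ⊤ := by
      rw [LinearMap.range_eq_top]
      obtain ⟨p₀⟩ := (inferInstance : Nonempty P)
      intro c
      refine ⟨Pi.single p₀ (((ε p₀ : ℤ) : ℚ) * c), ?_⟩
      rw [hL, Finset.sum_eq_single p₀]
      · rw [Pi.single_eq_same, ← mul_assoc, hεs, one_mul]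
      · intro p _ hp
        rw [Pi.single_eq_of_ne hp, mul_zero]
      · intro h; exact absurd (Finset.mem_univ _) h
    rw [h2, finrank_top, Module.finrank_self, Module.finrank_fintype_fun_eq_card] at h1
    rw [Nat.card_eq_fintype_card]
    omega
  let ev : (P → (Fin 5 → Fin 5) → ℚ) →ₗ[ℚ] (P → ℚ) :=
    { toFun := fun g p => g p id
      map_add' := fun _ _ => rfl
      map_smul' := fun _ _ => rfl }
  have hmaps : ∀ g ∈ (X.cochains 3).map (d (P := P) (k := 3)), ev g ∈ LinearMap.ker L := by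
    rintro g ⟨f, hf, rfl⟩
    rw [LinearMap.mem_ker, hL]
    exact fund X f hf ε hε
  have hle : Module.finrank ℚ ((X.cochains 3).map (d (P := P) (k := 3))) ≤
      Module.finrank ℚ (LinearMap.ker L) := by
    apply LinearMap.finrank_le_finrank_of_injective (f := ev.restrict hmaps)
    intro g g' h
    have h' : ev g.1 = ev g'.1 := congrArg Subtype.val h
    apply Subtype.ext
    obtain ⟨g, f, hf, rfl⟩ := g
    obtain ⟨g', f', hf', rfl⟩ := g'
    funext p x
    show d f p x = d f' p x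
    by_cases hx : Function.Injective x
    · have hbij : Function.Bijective x := Finite.injective_iff_bijective.1 hx
      have hx' : x = id ∘ (Equiv.ofBijective x hbij) := rfl
      have h1 := d_alt f hf.1 p id (Equiv.ofBijective x hbij)
      have h2 := d_alt f' hf'.1 p id (Equiv.ofBijective x hbij)
      rw [← hx'] at h1 h2
      rw [h1, h2]
      have h3 : d (P := P) (k := 3) f p id = d (P := P) (k := 3) f' p id := congrFun h' p
      rw [h3]
    · rw [alt_zero (fun x => d f p x) (fun x π => d_alt f hf.1 p x π) x hx,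
        alt_zero (fun x => d f' p x) (fun x π => d_alt f' hf'.1 p x π) x hx]
  omega

end Pool.Agent.H830.GT
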